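import Pool.Agent.Y807.CB.Sig1

/-!
The positive crossing commutes with `ΔF` (helper807 for the project CB3 of helper472).
-/

set_option autoImplicit false

namespace Pool.Agent.Y807.CB

open Finset Pool.Agent.Y472

variable {w l : ℂ}

lemma qi_zero : qi w 0 = 0 := by
  simp [qi, cb]

lemma qi_zero' : qi w ((0 : ℕ) : ℤ) = 0 := by
  simp [qi, cb]

lemma qi_succ (n : ℕ) : qi w ((n : ℤ) + 1) = w * w ^ n - (w * w ^ n)⁻¹ := by
  have := qi_nat (w := w) (n + 1)
  push_cast at this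
  rw [this, pow_succ']

lemma KK_inv_Cs (hw : w ≠ 0) (hl : l ≠ 0) (a b : ℕ) :
    (KK w l a)⁻¹ * Cs w l a b = Cs w l a (b + 1) := by
  rw [Cs_b hw hl, KK_eq hw, mul_inv, inv_inv]
  ring

lemma lb_neg (hw : w ≠ 0) (b : ℕ) : lb w l (-(b : ℤ)) = l * (w ^ b)⁻¹ - l⁻¹ * w ^ b := by
  unfold lb cb
  rw [zpow_neg, zpow_natCast, mul_inv, inv_inv]

/-- the coefficient identity for `F` -/
lemma keyF (hw : w ≠ 0) (hl : l ≠ 0) (a b n : ℕ) (hn : n ≤ a) :
    Cs w l (a + 1) b * (gs w l (a + 1) b (n + 1) * qi w ((b + (n + 1) : ℕ) : ℤ)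
      + gs w l (a + 1) b n * ((KK w l (b + n))⁻¹ * qi w (((a + 1 : ℕ) : ℤ) - n))) =
    qi w ((a + 1 : ℕ) : ℤ) * (Cs w l a b * gs w l a b n)
      + (KK w l (a + 1))⁻¹ * qi w b * (Cs w l (a + 1) (b - 1) * gs w l (a + 1) (b - 1) (n + 1)) := by
  have hA : w ^ a ≠ 0 := pow_ne_zero _ hw
  have hB : w ^ b ≠ 0 := pow_ne_zero _ hw
  have hW : w ^ n ≠ 0 := pow_ne_zero _ hw
  obtain ⟨Q, hQ⟩ : ∃ Q, Q = qb w (a + 1) (n + 1) := ⟨_, rfl⟩
  obtain ⟨P, hP⟩ : ∃ P, P = ∏ t ∈ range n, lb w l (-(b : ℤ) - 1 - t) := ⟨_, rfl⟩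
  obtain ⟨c, hc⟩ : ∃ c, c = w ^ (n * (n - 1) / 2) := ⟨_, rfl⟩
  have t1 : gs w l (a + 1) b (n + 1) = c * w ^ n * Q * (P * lb w l (-(b : ℤ) - 1 - n)) := by
    unfold gs
    rw [Nat.triangle_succ, pow_add, prod_range_succ, hc, hP, hQ]
  have t2 : gs w l (a + 1) b n * ((KK w l (b + n))⁻¹ * qi w (((a + 1 : ℕ) : ℤ) - n))
      = c * P * (KK w l (b + n))⁻¹ * (qi w (n + 1) * Q) := by
    have h1 := qrel hw (a + 1) n
    unfold gs
    rw [← hP, ← hc]
    linear_combination (norm := skip) (c * P * (KK w l (b + n))⁻¹) * h1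
    rw [hQ]
    ring
  have t3 : qi w ((a + 1 : ℕ) : ℤ) * (Cs w l a b * gs w l a b n)
      = Cs w l (a + 1) b * (l⁻¹ * w * (w ^ b) ^ 2)⁻¹ * (c * P) * (qi w (n + 1) * Q) := by
    have h1 := qrel2 hw a n
    have h2 := qrel hw (a + 1) n
    have h3 : Cs w l (a + 1) b * (l⁻¹ * w * (w ^ b) ^ 2)⁻¹ = Cs w l a b := by
      rw [Cs_a hw hl]
      field_simp
    rw [h3]
    unfold gs
    rw [← hP, ← hc]
    push_cast at h2 ⊢
    linear_combination (norm := skip) (Cs w l a b * c * P) * h1 + (Cs w l a b * c * P) * h2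
    rw [hQ]
    ring
  have t4 : (KK w l (a + 1))⁻¹ * qi w b * (Cs w l (a + 1) (b - 1) * gs w l (a + 1) (b - 1) (n + 1))
      = Cs w l (a + 1) b * (qi w b * (c * w ^ n * Q * (lb w l (-(b : ℤ)) * P))) := by
    rcases b with _ | b
    · rw [qi_zero']
      ring
    · have h1 := KK_inv_Cs (w := w) (l := l) hw hl (a + 1) b
      have h2 : gs w l (a + 1) (b + 1 - 1) (n + 1) = c * w ^ n * Q * (lb w l (-((b + 1 : ℕ) : ℤ)) * P) := by
        have h3 : b + 1 - 1 = b := rfl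
        rw [h3]
        unfold gs
        rw [Nat.triangle_succ, pow_add, prod_lb, hc, hP, hQ]
        have h4 : (-1 - (b : ℤ)) = -((b + 1 : ℕ) : ℤ) := by push_cast; ring
        rw [h4]
      rw [h2]
      have h3 : b + 1 - 1 = b := rfl
      rw [h3, ← h1]
      ring
  rw [t1, t2, t3, t4]
  have e1 : qi w ((b + (n + 1) : ℕ) : ℤ) = w * w ^ b * w ^ n - (w * w ^ b * w ^ n)⁻¹ := by
    rw [qi_nat, pow_add, pow_succ]
    ring
  have e2 : (KK w l (b + n))⁻¹ = l⁻¹ * w * (w ^ b * w ^ n) ^ 2 := by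
    rw [KK_eq hw, pow_add, mul_inv, inv_inv]
    ring
  rw [e1, e2, qi_succ, qi_nat, lb_neg hw, lb_eq' hw]
  field_simp
  ring

theorem sig1F (hw : w ≠ 0) (hl : l ≠ 0) (x : V2) : sg w l (F2 w l x) = F2 w l (sg w l x) := by
  funext a b
  obtain ⟨u, hu⟩ : ∃ u : ℕ → ℂ, u = fun n => x (b + n - 1) (a - n) := ⟨_, rfl⟩
  have L : sg w l (F2 w l x) a b = Cs w l a b * (∑ n ∈ range (a + 1),
      gs w l a b n * qi w ((b + n : ℕ) : ℤ) * u n
      + ∑ n ∈ range a, gs w l a b n * ((KK w l (b + n))⁻¹ * qi w ((a : ℤ) - n)) * u (n + 1)) := by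
    have h0 : ∑ n ∈ range (a + 1), gs w l a b n * ((KK w l (b + n))⁻¹ * qi w ((a : ℤ) - n)) * u (n + 1)
        = ∑ n ∈ range a, gs w l a b n * ((KK w l (b + n))⁻¹ * qi w ((a : ℤ) - n)) * u (n + 1) := by
      rw [sum_range_succ, sub_self, qi_zero]
      ring
    rw [sg_apply, ← h0, ← sum_add_distrib]
    congr 1
    refine sum_congr rfl fun n hn => ?_
    rw [mem_range] at hn
    rw [F2_apply, hu]
    have h1 : b + (n + 1) - 1 = b + n := by omega
    have h2 : a - n - 1 = a - (n + 1) := by omega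
    simp only
    rw [h1, h2, Nat.cast_sub (by omega : n ≤ a)]
    ring
  rcases a with _ | a
  · rw [L, F2_apply, sg_apply (a := 0) (b := b - 1), qi_zero']
    simp only [zero_add, range_one, sum_singleton, range_zero, sum_empty, add_zero, gs_zero,
      zero_mul]
    rw [hu]
    simp only [add_zero, Nat.sub_zero]
    rcases b with _ | b
    · rw [qi_zero']
      ring
    · have h1 := KK_inv_Cs (w := w) (l := l) hw hl 0 b
      have h3 : b + 1 - 1 = b := rfl
      rw [h3, ← h1]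
      ring
  · have L2 : ∑ n ∈ range (a + 1 + 1), gs w l (a + 1) b n * qi w ((b + n : ℕ) : ℤ) * u n
        = qi w b * u 0 + ∑ n ∈ range (a + 1),
          gs w l (a + 1) b (n + 1) * qi w ((b + (n + 1) : ℕ) : ℤ) * u (n + 1) := by
      rw [sum_range_succ', gs_zero, add_comm]
      simp only [add_zero, one_mul]
    have R : F2 w l (sg w l x) (a + 1) b = qi w ((a + 1 : ℕ) : ℤ) * (Cs w l a b *
        ∑ n ∈ range (a + 1), gs w l a b n * u (n + 1)) + (KK w l (a + 1))⁻¹ * qi w b *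
        (Cs w l (a + 1) (b - 1) * (u 0 + ∑ n ∈ range (a + 1),
          gs w l (a + 1) (b - 1) (n + 1) * u (n + 1))) := by
      rw [F2_apply, sg_apply, sg_apply]
      have h3 : a + 1 - 1 = a := rfl
      rw [h3]
      congr 1
      · congr 2
        refine sum_congr rfl fun n hn => ?_
        rw [hu]
        have h1 : b + (n + 1) - 1 = b + n := by omega
        have h2 : a + 1 - (n + 1) = a - n := by omega
        simp only
        rw [h1, h2]
      · rcases b with _ | b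
        · rw [qi_zero']
          ring
        · have h4 : b + 1 - 1 = b := rfl
          rw [h4, sum_range_succ', gs_zero, hu]
          simp only [add_zero, Nat.sub_zero, one_mul, h4]
          congr 2
          rw [add_comm]
          congr 1
          refine sum_congr rfl fun n hn => ?_
          have h1 : b + 1 + (n + 1) - 1 = b + (n + 1) := by omega
          rw [h1]
    rw [L, L2, R]
    have e10 : (KK w l (a + 1))⁻¹ * qi w b * Cs w l (a + 1) (b - 1) = Cs w l (a + 1) b * qi w b := by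
      rcases b with _ | b
      · rw [qi_zero']
        ring
      · have h1 := KK_inv_Cs (w := w) (l := l) hw hl (a + 1) b
        have h3 : b + 1 - 1 = b := rfl
        rw [h3, ← h1]
        ring
    have h0 : qi w ((a + 1 : ℕ) : ℤ) * (Cs w l a b *
        ∑ n ∈ range (a + 1), gs w l a b n * u (n + 1)) + (KK w l (a + 1))⁻¹ * qi w b *
        (Cs w l (a + 1) (b - 1) * (u 0 + ∑ n ∈ range (a + 1),
          gs w l (a + 1) (b - 1) (n + 1) * u (n + 1)))
        = ((KK w l (a + 1))⁻¹ * qi w b * Cs w l (a + 1) (b - 1)) * u 0 + ∑ n ∈ range (a + 1),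
        (qi w ((a + 1 : ℕ) : ℤ) * (Cs w l a b * gs w l a b n)
        + (KK w l (a + 1))⁻¹ * qi w b * (Cs w l (a + 1) (b - 1) * gs w l (a + 1) (b - 1) (n + 1)))
        * u (n + 1) := by
      have g1 : ∀ n, (qi w ((a + 1 : ℕ) : ℤ) * (Cs w l a b * gs w l a b n)
        + (KK w l (a + 1))⁻¹ * qi w b * (Cs w l (a + 1) (b - 1) * gs w l (a + 1) (b - 1) (n + 1)))
        * u (n + 1) = qi w ((a + 1 : ℕ) : ℤ) * Cs w l a b * (gs w l a b n * u (n + 1))
        + (KK w l (a + 1))⁻¹ * qi w b * Cs w l (a + 1) (b - 1) *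
          (gs w l (a + 1) (b - 1) (n + 1) * u (n + 1)) := fun n => by ring
      simp only [g1]
      rw [sum_add_distrib, ← mul_sum, ← mul_sum]
      ring
    rw [h0, e10]
    have h4 : Cs w l (a + 1) b * (qi w b * u 0 + ∑ n ∈ range (a + 1),
          gs w l (a + 1) b (n + 1) * qi w ((b + (n + 1) : ℕ) : ℤ) * u (n + 1)
        + ∑ n ∈ range (a + 1), gs w l (a + 1) b n *
          ((KK w l (b + n))⁻¹ * qi w (((a + 1 : ℕ) : ℤ) - n)) * u (n + 1))
        = Cs w l (a + 1) b * qi w b * u 0 + ∑ n ∈ range (a + 1),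
        (Cs w l (a + 1) b * (gs w l (a + 1) b (n + 1) * qi w ((b + (n + 1) : ℕ) : ℤ)
        + gs w l (a + 1) b n * ((KK w l (b + n))⁻¹ * qi w (((a + 1 : ℕ) : ℤ) - n)))) * u (n + 1) := by
      have g1 : ∀ n, (Cs w l (a + 1) b * (gs w l (a + 1) b (n + 1) * qi w ((b + (n + 1) : ℕ) : ℤ)
        + gs w l (a + 1) b n * ((KK w l (b + n))⁻¹ * qi w (((a + 1 : ℕ) : ℤ) - n)))) * u (n + 1)
        = Cs w l (a + 1) b * (gs w l (a + 1) b (n + 1) * qi w ((b + (n + 1) : ℕ) : ℤ) * u (n + 1))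
        + Cs w l (a + 1) b * (gs w l (a + 1) b n *
          ((KK w l (b + n))⁻¹ * qi w (((a + 1 : ℕ) : ℤ) - n)) * u (n + 1)) := fun n => by ring
      simp only [g1]
      rw [sum_add_distrib, ← mul_sum, ← mul_sum]
      ring
    rw [h4]
    congr 1
    refine sum_congr rfl fun n hn => ?_
    rw [keyF hw hl a b n (by rw [mem_range] at hn; omega)]

theorem sig1 : S_SIG1 := fun _ _ hw hl => ⟨sig1E hw hl, sig1F hw hl⟩

end Pool.Agent.Y807.CB
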