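import Pool.Agent.Y807.CB.Sig1F

/-!
The negative crossing commutes with `ΔE` and `ΔF` (helper807 for the project CB3 of helper472).
-/

set_option autoImplicit false

namespace Pool.Agent.Y807.CB

open Finset Pool.Agent.Y472

variable {w l : ℂ}

/-- the constant of the negative crossing -/
noncomputable def Cn (w l : ℂ) (a b : ℕ) : ℂ := l ^ (1 + (a : ℤ) + b) * w ^ (-(1 + (a : ℤ) + b))

/-- the exponent -/
def en (a b n : ℕ) : ℤ := -((n * (n - 1) / 2 : ℕ) : ℤ) - 2 * ((b : ℤ) - n) * ((a : ℤ) + n)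

/-- the coefficients of the negative crossing -/
noncomputable def gn (w l : ℂ) (a b n : ℕ) : ℂ :=
  (-1) ^ n * w ^ (en a b n) * qb w b n * ∏ t ∈ range n, lb w l (-(a : ℤ) - 1 - t)

lemma sn_apply (x : V2) (a b : ℕ) :
    sn w l x a b = Cn w l a b * ∑ n ∈ range (b + 1), gn w l a b n * x (b - n) (a + n) := rfl

lemma Cn_a (hw : w ≠ 0) (hl : l ≠ 0) (a b : ℕ) :
    Cn w l (a + 1) b = Cn w l a b * (l * w⁻¹) := by
  have e1 : l ^ (1 + ((a + 1 : ℕ) : ℤ) + b) = l ^ (1 + (a : ℤ) + b) * l := by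
    rw [← zpow_add_one₀ hl]
    congr 1
    push_cast
    ring
  have e2 : w ^ (-(1 + ((a + 1 : ℕ) : ℤ) + b)) = w ^ (-(1 + (a : ℤ) + b)) * w⁻¹ := by
    rw [← zpow_neg_one w, ← zpow_add₀ hw]
    congr 1
    push_cast
    ring
  unfold Cn
  rw [e1, e2]
  ring

lemma Cn_b (hw : w ≠ 0) (hl : l ≠ 0) (a b : ℕ) :
    Cn w l a (b + 1) = Cn w l a b * (l * w⁻¹) := by
  have e1 : l ^ (1 + (a : ℤ) + ((b + 1 : ℕ) : ℤ)) = l ^ (1 + (a : ℤ) + b) * l := by
    rw [← zpow_add_one₀ hl]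
    congr 1
  have e2 : w ^ (-(1 + (a : ℤ) + ((b + 1 : ℕ) : ℤ))) = w ^ (-(1 + (a : ℤ) + b)) * w⁻¹ := by
    rw [← zpow_neg_one w, ← zpow_add₀ hw]
    congr 1
    push_cast
    ring
  unfold Cn
  rw [e1, e2]
  ring

lemma en_n (hw : w ≠ 0) (a b n : ℕ) : w ^ (en a b (n + 1))
    = w ^ (en a b n) * (w ^ 2 * (w ^ n) ^ 3 * (w ^ a) ^ 2 * ((w ^ b) ^ 2)⁻¹) := by
  have h : w ^ 2 * (w ^ n) ^ 3 * (w ^ a) ^ 2 * ((w ^ b) ^ 2)⁻¹
      = w ^ (2 + (n : ℤ) * 3 + a * 2 - b * 2) := by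
    rw [zpow_sub₀ hw, zpow_add₀ hw, zpow_add₀ hw]
    simp only [zpow_mul, zpow_natCast]
    norm_cast
  rw [h, ← zpow_add₀ hw]
  congr 1
  unfold en
  rw [Nat.triangle_succ]
  push_cast
  ring

lemma en_a (hw : w ≠ 0) (a b n : ℕ) : w ^ (en (a + 1) b n)
    = w ^ (en a b n) * (((w ^ b) ^ 2)⁻¹ * (w ^ n) ^ 2) := by
  have h : ((w ^ b) ^ 2)⁻¹ * (w ^ n) ^ 2 = w ^ ((n : ℤ) * 2 - b * 2) := by
    rw [zpow_sub₀ hw, mul_comm, div_eq_mul_inv]
    simp only [zpow_mul, zpow_natCast]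
    norm_cast
  rw [h, ← zpow_add₀ hw]
  congr 1
  unfold en
  push_cast
  ring

lemma en_b (hw : w ≠ 0) (a b n : ℕ) : w ^ (en a (b + 1) n)
    = w ^ (en a b n) * (((w ^ a) ^ 2)⁻¹ * ((w ^ n) ^ 2)⁻¹) := by
  have h : ((w ^ a) ^ 2)⁻¹ * ((w ^ n) ^ 2)⁻¹ = w ^ (-((a : ℤ) * 2 + n * 2)) := by
    rw [zpow_neg, zpow_add₀ hw, mul_inv]
    simp only [zpow_mul, zpow_natCast]
    norm_cast
  rw [h, ← zpow_add₀ hw]
  congr 1
  unfold en
  push_cast
  ring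

/-- the coefficient identity for `E` -/
lemma keyE' (hw : w ≠ 0) (hl : l ≠ 0) (a b n : ℕ) :
    Cn w l a b * (gn w l a b (n + 1) * (lb w l (-1 - ((b : ℤ) - (n + 1))) * KK w l (a + (n + 1)))
      + gn w l a b n * lb w l (-1 - ((a + n : ℕ) : ℤ))) =
    lb w l (-1 - a) * KK w l b * (Cn w l (a + 1) b * gn w l (a + 1) b n)
      + lb w l (-1 - b) * (Cn w l a (b + 1) * gn w l a (b + 1) (n + 1)) := by
  have hA : w ^ a ≠ 0 := pow_ne_zero _ hw
  have hB : w ^ b ≠ 0 := pow_ne_zero _ hw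
  have hW : w ^ n ≠ 0 := pow_ne_zero _ hw
  obtain ⟨P, hP⟩ : ∃ P, P = ∏ t ∈ range (n + 1), lb w l (-(a : ℤ) - 1 - t) := ⟨_, rfl⟩
  obtain ⟨W0, hW0⟩ : ∃ W0, W0 = w ^ (en a b n) := ⟨_, rfl⟩
  obtain ⟨s, hs⟩ : ∃ s : ℂ, s = (-1) ^ n := ⟨_, rfl⟩
  have e1 : lb w l (-1 - ((a + n : ℕ) : ℤ)) = lb w l (-(a : ℤ) - 1 - n) := by
    congr 1
    push_cast
    ring
  have e2 : lb w l (-1 - ((b : ℤ) - (n + 1))) = l * (w ^ n * (w ^ b)⁻¹) - l⁻¹ * (w ^ b * (w ^ n)⁻¹) := by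
    unfold lb cb
    have : -1 - ((b : ℤ) - (n + 1)) = n - b := by ring
    rw [this, zpow_sub₀ hw, zpow_natCast, zpow_natCast, mul_inv, inv_div, div_eq_mul_inv,
      div_eq_mul_inv]
  have e3 : KK w l (a + (n + 1)) = l * (w * (w ^ a * w ^ n * w) ^ 2)⁻¹ := by
    rw [KK_eq hw, ← add_assoc, pow_succ w, pow_add w]
  have e4 : lb w l (-1 - a) * gn w l (a + 1) b n
      = s * (W0 * (((w ^ b) ^ 2)⁻¹ * (w ^ n) ^ 2)) * qb w b n * P := by
    rw [hP, prod_lb]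
    unfold gn
    rw [en_a hw, ← hW0, ← hs]
    ring
  have e5 : gn w l a b (n + 1) = -s * (W0 * (w ^ 2 * (w ^ n) ^ 3 * (w ^ a) ^ 2 * ((w ^ b) ^ 2)⁻¹))
      * qb w b (n + 1) * P := by
    unfold gn
    rw [en_n hw, ← hW0, pow_succ, ← hs, ← hP]
    ring
  have e6 : gn w l a (b + 1) (n + 1) = -s * (W0 * (w ^ 2 * (w ^ n) ^ 3 * (w ^ a) ^ 2 * ((w ^ b) ^ 2)⁻¹)
      * (((w ^ a) ^ 2)⁻¹ * ((w ^ n * w) ^ 2)⁻¹)) * qb w (b + 1) (n + 1) * P := by
    unfold gn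
    rw [en_b hw, en_n hw, ← hW0, pow_succ (-1 : ℂ), pow_succ w, ← hs, ← hP]
    ring
  have e7 : gn w l a b n * lb w l (-(a : ℤ) - 1 - n) = s * W0 * qb w b n * P := by
    rw [hP, prod_range_succ]
    unfold gn
    rw [← hW0, ← hs]
    ring
  have h1 := pas1 hw b n
  have h2 := pas2 hw b n
  have e8 : lb w l (-1 - a) * KK w l b * (Cn w l (a + 1) b * gn w l (a + 1) b n)
      = KK w l b * Cn w l (a + 1) b * (lb w l (-1 - a) * gn w l (a + 1) b n) := by ring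
  rw [e8, e4, e1, e7, e5, e6, e3, e2, lb_eq hw b, Cn_a hw hl, Cn_b hw hl, KK_eq hw b]
  linear_combination (norm := skip) (Cn w l a b * s * W0 * P * l ^ 2 *
      (w ^ 2)⁻¹ * w ^ n * ((w ^ b) ^ 3)⁻¹) * h1
    - (Cn w l a b * s * W0 * P * w ^ n * (w ^ b)⁻¹) * h2
  field_simp
  ring

lemma keyE0 (hw : w ≠ 0) (hl : l ≠ 0) (a b : ℕ) :
    Cn w l a b * (gn w l a b 0 * (lb w l (-1 - b) * KK w l a))
      = lb w l (-1 - b) * (Cn w l a (b + 1) * gn w l a (b + 1) 0) := by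
  have hA : w ^ a ≠ 0 := pow_ne_zero _ hw
  unfold gn
  rw [en_b hw, Cn_b hw hl, KK_eq hw, qb_zero, qb_zero]
  simp only [pow_zero, range_zero, prod_empty, one_mul, mul_one, one_pow, inv_one]
  field_simp

theorem sig2E (hw : w ≠ 0) (hl : l ≠ 0) (x : V2) : sn w l (E2 w l x) = E2 w l (sn w l x) := by
  funext a b
  obtain ⟨y, hy⟩ : ∃ y : ℕ → ℂ, y = fun n => x (b + 1 - n) (a + n) := ⟨_, rfl⟩
  have L : sn w l (E2 w l x) a b = Cn w l a b * (∑ n ∈ range (b + 1),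
      gn w l a b n * (lb w l (-1 - ((b : ℤ) - n)) * KK w l (a + n)) * y n
      + ∑ n ∈ range (b + 1), gn w l a b n * lb w l (-1 - ((a + n : ℕ) : ℤ)) * y (n + 1)) := by
    rw [sn_apply, ← sum_add_distrib]
    congr 1
    refine sum_congr rfl fun n hn => ?_
    rw [mem_range] at hn
    rw [E2_apply, hy]
    have h1 : a + n + 1 = a + (n + 1) := by ring
    have h2 : b - n + 1 = b + 1 - n := by omega
    have h3 : b + 1 - (n + 1) = b - n := by omega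
    simp only
    rw [h1, h2, h3, Nat.cast_sub (by omega : n ≤ b)]
    ring
  have L2 : ∑ n ∈ range (b + 1), gn w l a b n * (lb w l (-1 - ((b : ℤ) - n)) * KK w l (a + n)) * y n
      = gn w l a b 0 * (lb w l (-1 - b) * KK w l a) * y 0 + ∑ n ∈ range (b + 1),
        gn w l a b (n + 1) * (lb w l (-1 - ((b : ℤ) - (n + 1))) * KK w l (a + (n + 1))) * y (n + 1) := by
    have h1 : ∑ n ∈ range (b + 1 + 1),
        gn w l a b n * (lb w l (-1 - ((b : ℤ) - n)) * KK w l (a + n)) * y n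
        = ∑ n ∈ range (b + 1), gn w l a b n * (lb w l (-1 - ((b : ℤ) - n)) * KK w l (a + n)) * y n := by
      rw [sum_range_succ]
      have : gn w l a b (b + 1) = 0 := by
        unfold gn
        rw [qb_gt (by omega)]
        ring
      rw [this]
      ring
    rw [← h1, sum_range_succ', add_comm]
    push_cast
    rw [sub_zero, add_zero]
  have R : E2 w l (sn w l x) a b = lb w l (-1 - a) * KK w l b * (Cn w l (a + 1) b *
      ∑ n ∈ range (b + 1), gn w l (a + 1) b n * y (n + 1))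
      + lb w l (-1 - b) * (Cn w l a (b + 1) *
      (gn w l a (b + 1) 0 * y 0 + ∑ n ∈ range (b + 1), gn w l a (b + 1) (n + 1) * y (n + 1))) := by
    rw [E2_apply, sn_apply, sn_apply, sum_range_succ' _ (b + 1)]
    congr 2
    · congr 1
      refine sum_congr rfl fun n hn => ?_
      rw [hy]
      have h1 : a + 1 + n = a + (n + 1) := by ring
      have h3 : b + 1 - (n + 1) = b - n := by omega
      simp only
      rw [h1, h3]
    · rw [hy]
      simp only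
      ring
  rw [L, L2, R]
  have g1 : ∀ n, (lb w l (-1 - a) * KK w l b * (Cn w l (a + 1) b * gn w l (a + 1) b n)
      + lb w l (-1 - b) * (Cn w l a (b + 1) * gn w l a (b + 1) (n + 1))) * y (n + 1)
      = lb w l (-1 - a) * KK w l b * Cn w l (a + 1) b * (gn w l (a + 1) b n * y (n + 1))
      + lb w l (-1 - b) * Cn w l a (b + 1) * (gn w l a (b + 1) (n + 1) * y (n + 1)) :=
    fun n => by ring
  have h0 : lb w l (-1 - a) * KK w l b * (Cn w l (a + 1) b *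
      ∑ n ∈ range (b + 1), gn w l (a + 1) b n * y (n + 1))
      + lb w l (-1 - b) * (Cn w l a (b + 1) *
      (gn w l a (b + 1) 0 * y 0 + ∑ n ∈ range (b + 1), gn w l a (b + 1) (n + 1) * y (n + 1)))
      = (lb w l (-1 - b) * (Cn w l a (b + 1) * gn w l a (b + 1) 0)) * y 0 + ∑ n ∈ range (b + 1),
      (lb w l (-1 - a) * KK w l b * (Cn w l (a + 1) b * gn w l (a + 1) b n)
      + lb w l (-1 - b) * (Cn w l a (b + 1) * gn w l a (b + 1) (n + 1))) * y (n + 1) := by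
    simp only [g1]
    rw [sum_add_distrib, ← mul_sum, ← mul_sum]
    ring
  rw [h0]
  have g2 : ∀ n, (Cn w l a b * (gn w l a b (n + 1) *
      (lb w l (-1 - ((b : ℤ) - (n + 1))) * KK w l (a + (n + 1)))
      + gn w l a b n * lb w l (-1 - ((a + n : ℕ) : ℤ)))) * y (n + 1)
      = Cn w l a b * (gn w l a b (n + 1) *
      (lb w l (-1 - ((b : ℤ) - (n + 1))) * KK w l (a + (n + 1))) * y (n + 1))
      + Cn w l a b * (gn w l a b n * lb w l (-1 - ((a + n : ℕ) : ℤ)) * y (n + 1)) :=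
    fun n => by ring
  have h4 : Cn w l a b * (gn w l a b 0 * (lb w l (-1 - b) * KK w l a) * y 0 + ∑ n ∈ range (b + 1),
        gn w l a b (n + 1) * (lb w l (-1 - ((b : ℤ) - (n + 1))) * KK w l (a + (n + 1))) * y (n + 1)
      + ∑ n ∈ range (b + 1), gn w l a b n * lb w l (-1 - ((a + n : ℕ) : ℤ)) * y (n + 1))
      = Cn w l a b * (gn w l a b 0 * (lb w l (-1 - b) * KK w l a)) * y 0 + ∑ n ∈ range (b + 1),
      (Cn w l a b * (gn w l a b (n + 1) *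
      (lb w l (-1 - ((b : ℤ) - (n + 1))) * KK w l (a + (n + 1)))
      + gn w l a b n * lb w l (-1 - ((a + n : ℕ) : ℤ)))) * y (n + 1) := by
    simp only [g2]
    rw [sum_add_distrib, ← mul_sum, ← mul_sum]
    ring
  rw [h4, keyE0 hw hl]
  congr 1
  refine sum_congr rfl fun n hn => ?_
  rw [keyE' hw hl a b n]

/-- the coefficient identity for `F` -/
lemma keyF' (hw : w ≠ 0) (hl : l ≠ 0) (a b n : ℕ) (hn : n ≤ b) :
    Cn w l a (b + 1) * (gn w l a (b + 1) n * qi w (((b + 1 : ℕ) : ℤ) - n)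
      + gn w l a (b + 1) (n + 1) * ((KK w l (b + 1 - (n + 1)))⁻¹ * qi w ((a + (n + 1) : ℕ) : ℤ))) =
    qi w a * (Cn w l (a - 1) (b + 1) * gn w l (a - 1) (b + 1) (n + 1))
      + (KK w l a)⁻¹ * qi w ((b + 1 : ℕ) : ℤ) * (Cn w l a b * gn w l a b n) := by
  have hA : w ^ a ≠ 0 := pow_ne_zero _ hw
  have hB : w ^ b ≠ 0 := pow_ne_zero _ hw
  have hW : w ^ n ≠ 0 := pow_ne_zero _ hw
  obtain ⟨P, hP⟩ : ∃ P, P = ∏ t ∈ range n, lb w l (-(a : ℤ) - 1 - t) := ⟨_, rfl⟩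
  obtain ⟨W0, hW0⟩ : ∃ W0, W0 = w ^ (en a b n) := ⟨_, rfl⟩
  obtain ⟨s, hs⟩ : ∃ s : ℂ, s = (-1) ^ n := ⟨_, rfl⟩
  obtain ⟨Q, hQ⟩ : ∃ Q, Q = qb w (b + 1) (n + 1) := ⟨_, rfl⟩
  -- the exponent at `b + 1`
  have hE : w ^ (en a (b + 1) n) = W0 * (((w ^ a) ^ 2)⁻¹ * ((w ^ n) ^ 2)⁻¹) := by
    rw [en_b hw, hW0]
  have hE2 : w ^ (en a (b + 1) (n + 1)) = W0 * (((w ^ a) ^ 2)⁻¹ * ((w ^ n) ^ 2)⁻¹) *
      (w ^ 2 * (w ^ n) ^ 3 * (w ^ a) ^ 2 * ((w ^ b * w) ^ 2)⁻¹) := by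
    rw [en_n hw, hE, pow_succ w b]
  have t1 : gn w l a (b + 1) n * qi w (((b + 1 : ℕ) : ℤ) - n)
      = s * (W0 * (((w ^ a) ^ 2)⁻¹ * ((w ^ n) ^ 2)⁻¹)) * P * (qi w (n + 1) * Q) := by
    have h1 := qrel hw (b + 1) n
    unfold gn
    rw [hE, ← hP, ← hs]
    linear_combination (norm := skip) (s * (W0 * (((w ^ a) ^ 2)⁻¹ * ((w ^ n) ^ 2)⁻¹)) * P) * h1
    rw [hQ]
    ring
  have t2 : gn w l a (b + 1) (n + 1) = -s * (W0 * (((w ^ a) ^ 2)⁻¹ * ((w ^ n) ^ 2)⁻¹) *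
      (w ^ 2 * (w ^ n) ^ 3 * (w ^ a) ^ 2 * ((w ^ b * w) ^ 2)⁻¹)) * Q *
      (P * lb w l (-(a : ℤ) - 1 - n)) := by
    unfold gn
    rw [hE2, pow_succ (-1 : ℂ), prod_range_succ, ← hP, ← hs, ← hQ]
    ring
  have t3 : qi w a * (Cn w l (a - 1) (b + 1) * gn w l (a - 1) (b + 1) (n + 1))
      = Cn w l a (b + 1) * (qi w a * (l⁻¹ * w) * (-s * (W0 * (((w ^ a) ^ 2)⁻¹ * ((w ^ n) ^ 2)⁻¹) *
      (w ^ 2 * (w ^ n) ^ 3 * (w ^ a) ^ 2 * ((w ^ b * w) ^ 2)⁻¹) * ((w ^ b) ^ 2 * ((w ^ n) ^ 2)⁻¹)) * Q *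
      (lb w l (-(a : ℤ)) * P))) := by
    rcases a with _ | a
    · rw [qi_zero']
      ring
    · have h3 : a + 1 - 1 = a := rfl
      rw [h3]
      have h4 : Cn w l a (b + 1) = Cn w l (a + 1) (b + 1) * (l⁻¹ * w) := by
        rw [Cn_a hw hl a (b + 1)]
        field_simp
      have h5 : w ^ (en a (b + 1) (n + 1)) = w ^ (en (a + 1) (b + 1) (n + 1)) *
          ((w ^ b) ^ 2 * ((w ^ n) ^ 2)⁻¹) := by
        rw [en_a hw a (b + 1) (n + 1), pow_succ w b, pow_succ w n]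
        field_simp
      have h6 : gn w l a (b + 1) (n + 1) = -s * (W0 * (((w ^ (a + 1)) ^ 2)⁻¹ * ((w ^ n) ^ 2)⁻¹) *
      (w ^ 2 * (w ^ n) ^ 3 * (w ^ (a + 1)) ^ 2 * ((w ^ b * w) ^ 2)⁻¹) *
        ((w ^ b) ^ 2 * ((w ^ n) ^ 2)⁻¹)) * Q * (lb w l (-((a + 1 : ℕ) : ℤ)) * P) := by
        unfold gn
        rw [h5, hE2, pow_succ (-1 : ℂ), prod_lb, ← hP, ← hs, ← hQ]
        have h7 : (-1 - (a : ℤ)) = -((a + 1 : ℕ) : ℤ) := by push_cast; ring
        rw [h7]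
        ring
      rw [h6, h4]
      ring
  have t4 : (KK w l a)⁻¹ * qi w ((b + 1 : ℕ) : ℤ) * (Cn w l a b * gn w l a b n)
      = Cn w l a (b + 1) * ((KK w l a)⁻¹ * (l⁻¹ * w) * (s * W0 * P) * (qi w (n + 1) * Q)) := by
    have h1 := qrel2 hw b n
    have h2 := qrel hw (b + 1) n
    have h4 : Cn w l a b = Cn w l a (b + 1) * (l⁻¹ * w) := by
      rw [Cn_b hw hl a b]
      field_simp
    unfold gn
    rw [h4, ← hP, ← hs, ← hW0]
    push_cast at h2 ⊢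
    linear_combination (norm := skip) ((KK w l a)⁻¹ * Cn w l a (b + 1) * (l⁻¹ * w) * s * W0 * P) * h1
      + ((KK w l a)⁻¹ * Cn w l a (b + 1) * (l⁻¹ * w) * s * W0 * P) * h2
    rw [hQ]
    ring
  rw [t1, t2, t3, t4]
  have e1 : qi w ((a + (n + 1) : ℕ) : ℤ) = w * w ^ a * w ^ n - (w * w ^ a * w ^ n)⁻¹ := by
    rw [qi_nat, pow_add, pow_succ]
    ring
  have e2 : (KK w l (b + 1 - (n + 1)))⁻¹ = l⁻¹ * w * ((w ^ b) ^ 2 * ((w ^ n) ^ 2)⁻¹) := by
    have h5 : b + 1 - (n + 1) = b - n := by omega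
    rw [h5, KK_eq hw]
    have : w ^ b = w ^ (b - n) * w ^ n := by rw [← pow_add]; congr 1; omega
    rw [this]
    have h6 : w ^ (b - n) ≠ 0 := pow_ne_zero _ hw
    field_simp
  rw [e1, e2, qi_succ, qi_nat, lb_neg hw, lb_eq' hw, KK_eq hw]
  field_simp
  ring

lemma keyF0 (hw : w ≠ 0) (hl : l ≠ 0) (a b : ℕ) :
    Cn w l a b * (gn w l a b 0 * ((KK w l b)⁻¹ * qi w a))
      = qi w a * (Cn w l (a - 1) b * gn w l (a - 1) b 0) := by
  rcases a with _ | a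
  · rw [qi_zero']
    ring
  · have hB : w ^ b ≠ 0 := pow_ne_zero _ hw
    have h3 : a + 1 - 1 = a := rfl
    rw [h3]
    unfold gn
    rw [en_a hw, Cn_a hw hl, KK_eq hw, qb_zero]
    simp only [pow_zero, range_zero, prod_empty, one_mul, mul_one, one_pow]
    field_simp

theorem sig2F (hw : w ≠ 0) (hl : l ≠ 0) (x : V2) : sn w l (F2 w l x) = F2 w l (sn w l x) := by
  funext a b
  obtain ⟨u, hu⟩ : ∃ u : ℕ → ℂ, u = fun n => x (b - n) (a + n - 1) := ⟨_, rfl⟩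
  have L : sn w l (F2 w l x) a b = Cn w l a b * (∑ n ∈ range b,
      gn w l a b n * qi w ((b : ℤ) - n) * u (n + 1)
      + ∑ n ∈ range (b + 1), gn w l a b n * ((KK w l (b - n))⁻¹ * qi w ((a + n : ℕ) : ℤ)) * u n) := by
    have h0 : ∑ n ∈ range (b + 1), gn w l a b n * qi w ((b : ℤ) - n) * u (n + 1)
        = ∑ n ∈ range b, gn w l a b n * qi w ((b : ℤ) - n) * u (n + 1) := by
      rw [sum_range_succ, sub_self, qi_zero]
      ring
    rw [sn_apply, ← h0, ← sum_add_distrib]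
    congr 1
    refine sum_congr rfl fun n hn => ?_
    rw [mem_range] at hn
    rw [F2_apply, hu]
    have h1 : a + (n + 1) - 1 = a + n := by omega
    have h2 : b - n - 1 = b - (n + 1) := by omega
    simp only
    rw [h1, h2, Nat.cast_sub (by omega : n ≤ b)]
    ring
  rcases b with _ | b
  · rw [L, F2_apply, sn_apply (a := a - 1), qi_zero']
    simp only [zero_add, range_one, sum_singleton, range_zero, sum_empty, add_zero, Nat.sub_zero,
      mul_zero, zero_mul]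
    have h1 := keyF0 (w := w) (l := l) hw hl a 0
    rw [hu]
    simp only [add_zero, Nat.sub_zero]
    linear_combination (x 0 (a - 1)) * h1
  · have L2 : ∑ n ∈ range (b + 1 + 1),
        gn w l a (b + 1) n * ((KK w l (b + 1 - n))⁻¹ * qi w ((a + n : ℕ) : ℤ)) * u n
        = gn w l a (b + 1) 0 * ((KK w l (b + 1))⁻¹ * qi w a) * u 0 + ∑ n ∈ range (b + 1),
          gn w l a (b + 1) (n + 1) * ((KK w l (b + 1 - (n + 1)))⁻¹ *
            qi w ((a + (n + 1) : ℕ) : ℤ)) * u (n + 1) := by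
      rw [sum_range_succ', add_comm]
      simp only [add_zero, Nat.sub_zero]
    have R : F2 w l (sn w l x) a (b + 1) = qi w a * (Cn w l (a - 1) (b + 1) *
        (gn w l (a - 1) (b + 1) 0 * u 0 + ∑ n ∈ range (b + 1),
          gn w l (a - 1) (b + 1) (n + 1) * u (n + 1))) + (KK w l a)⁻¹ * qi w ((b + 1 : ℕ) : ℤ) *
        (Cn w l a b * ∑ n ∈ range (b + 1), gn w l a b n * u (n + 1)) := by
      rw [F2_apply, sn_apply, sn_apply]
      have h3 : b + 1 - 1 = b := rfl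
      rw [h3]
      congr 1
      · rcases a with _ | a
        · rw [qi_zero']
          ring
        · have h4 : a + 1 - 1 = a := rfl
          rw [h4, sum_range_succ', hu]
          simp only [add_zero, Nat.sub_zero, h4]
          congr 2
          rw [add_comm]
          congr 1
          refine sum_congr rfl fun n hn => ?_
          have h1 : a + 1 + (n + 1) - 1 = a + (n + 1) := by omega
          rw [h1]
      · congr 2
        refine sum_congr rfl fun n hn => ?_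
        rw [hu]
        have h1 : a + (n + 1) - 1 = a + n := by omega
        have h2 : b + 1 - (n + 1) = b - n := by omega
        simp only
        rw [h1, h2]
    rw [L, L2, R]
    have g1 : ∀ n, (qi w a * (Cn w l (a - 1) (b + 1) * gn w l (a - 1) (b + 1) (n + 1))
      + (KK w l a)⁻¹ * qi w ((b + 1 : ℕ) : ℤ) * (Cn w l a b * gn w l a b n)) * u (n + 1)
      = qi w a * Cn w l (a - 1) (b + 1) * (gn w l (a - 1) (b + 1) (n + 1) * u (n + 1))
      + (KK w l a)⁻¹ * qi w ((b + 1 : ℕ) : ℤ) * Cn w l a b * (gn w l a b n * u (n + 1)) :=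
      fun n => by ring
    have h0 : qi w a * (Cn w l (a - 1) (b + 1) *
        (gn w l (a - 1) (b + 1) 0 * u 0 + ∑ n ∈ range (b + 1),
          gn w l (a - 1) (b + 1) (n + 1) * u (n + 1))) + (KK w l a)⁻¹ * qi w ((b + 1 : ℕ) : ℤ) *
        (Cn w l a b * ∑ n ∈ range (b + 1), gn w l a b n * u (n + 1))
        = (qi w a * (Cn w l (a - 1) (b + 1) * gn w l (a - 1) (b + 1) 0)) * u 0
        + ∑ n ∈ range (b + 1),
        (qi w a * (Cn w l (a - 1) (b + 1) * gn w l (a - 1) (b + 1) (n + 1))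
      + (KK w l a)⁻¹ * qi w ((b + 1 : ℕ) : ℤ) * (Cn w l a b * gn w l a b n)) * u (n + 1) := by
      simp only [g1]
      rw [sum_add_distrib, ← mul_sum, ← mul_sum]
      ring
    have g2 : ∀ n, (Cn w l a (b + 1) * (gn w l a (b + 1) n * qi w (((b + 1 : ℕ) : ℤ) - n)
      + gn w l a (b + 1) (n + 1) * ((KK w l (b + 1 - (n + 1)))⁻¹ * qi w ((a + (n + 1) : ℕ) : ℤ))))
      * u (n + 1)
      = Cn w l a (b + 1) * (gn w l a (b + 1) n * qi w (((b + 1 : ℕ) : ℤ) - n) * u (n + 1))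
      + Cn w l a (b + 1) * (gn w l a (b + 1) (n + 1) * ((KK w l (b + 1 - (n + 1)))⁻¹ *
            qi w ((a + (n + 1) : ℕ) : ℤ)) * u (n + 1)) :=
      fun n => by ring
    have h4 : Cn w l a (b + 1) * (∑ n ∈ range (b + 1),
      gn w l a (b + 1) n * qi w (((b + 1 : ℕ) : ℤ) - n) * u (n + 1)
      + (gn w l a (b + 1) 0 * ((KK w l (b + 1))⁻¹ * qi w a) * u 0 + ∑ n ∈ range (b + 1),
          gn w l a (b + 1) (n + 1) * ((KK w l (b + 1 - (n + 1)))⁻¹ *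
            qi w ((a + (n + 1) : ℕ) : ℤ)) * u (n + 1)))
        = Cn w l a (b + 1) * (gn w l a (b + 1) 0 * ((KK w l (b + 1))⁻¹ * qi w a)) * u 0
        + ∑ n ∈ range (b + 1),
        (Cn w l a (b + 1) * (gn w l a (b + 1) n * qi w (((b + 1 : ℕ) : ℤ) - n)
      + gn w l a (b + 1) (n + 1) * ((KK w l (b + 1 - (n + 1)))⁻¹ * qi w ((a + (n + 1) : ℕ) : ℤ))))
      * u (n + 1) := by
      simp only [g2]
      rw [sum_add_distrib, ← mul_sum, ← mul_sum]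
      ring
    rw [h0, h4, keyF0 hw hl]
    congr 1
    refine sum_congr rfl fun n hn => ?_
    rw [keyF' hw hl a b n (by rw [mem_range] at hn; omega)]

theorem sig2 : S_SIG2 := fun _ _ hw hl => ⟨sig2E hw hl, sig2F hw hl⟩

end Pool.Agent.Y807.CB
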