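import Pool.Agent.Y807.CB.Sig2

/-!
The crossings and the Casimir operator respect the supports and the weights
(helper807 for the project CB3 of helper472).
-/

set_option autoImplicit false

namespace Pool.Agent.Y807.CB

open Finset Pool.Agent.Y472

variable {w l : ℂ} {N : ℕ}

lemma Rt_ne (h : Rt N w) : w ≠ 0 := by
  intro h0
  have := h.nrm
  rw [h0, norm_zero] at this
  exact zero_ne_one this

lemma qi_N (h : Rt N w) : qi w (N : ℤ) = 0 := by
  rw [qi_nat, h.neg]
  norm_num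

lemma qi_ne (h : Rt N w) {k : ℕ} (h0 : 0 < k) (h1 : k < N) : qi w (k : ℤ) ≠ 0 := by
  intro h2
  have hw := Rt_ne h
  have hk : w ^ k ≠ 0 := pow_ne_zero _ hw
  rw [qi_nat, sub_eq_zero] at h2
  have h3 : (w ^ 2) ^ k = 1 := by
    rw [← pow_mul, mul_comm, pow_mul, pow_two]
    nth_rewrite 2 [h2]
    exact mul_inv_cancel₀ hk
  have h4 := h.prim.dvd_of_pow_eq_one k h3
  exact absurd (Nat.le_of_dvd h0 h4) (not_le.2 h1)

/-- vanishing of Gaussian binomials at the root of unity -/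
lemma qb_van (h : Rt N w) {a n : ℕ} (h1 : N ≤ a) (h2 : n < N) (h3 : a < N + n) :
    qb w a n = 0 := by
  have hw := Rt_ne h
  have h4 := qprod hw a n
  have h5 : ∏ t ∈ range n, qi w ((a : ℤ) - t) = 0 := by
    apply prod_eq_zero (i := a - N) (mem_range.2 (by omega))
    have : ((a : ℤ) - ((a - N : ℕ) : ℤ)) = N := by
      rw [Nat.cast_sub h1]
      ring
    rw [this, qi_N h]
  rw [h5] at h4
  rcases mul_eq_zero.1 h4 with h6 | h6
  · exact h6
  · exfalso
    rw [prod_eq_zero_iff] at h6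
    obtain ⟨t, ht, h7⟩ := h6
    rw [mem_range] at ht
    have h8 := qi_ne h (k := t + 1) (by omega) (by omega)
    push_cast at h8
    exact h8 h7

lemma T2_iff (x : V2) : x ∈ T2 N ↔ ∀ a b, (N ≤ a ∨ N ≤ b) → x a b = 0 := Iff.rfl

lemma sg_T2 (h : Rt N w) (x : V2) (hx : x ∈ T2 N) : sg w l x ∈ T2 N := by
  rw [T2_iff] at *
  intro a b hab
  rw [sg_apply]
  have : ∑ n ∈ range (a + 1), gs w l a b n * x (b + n) (a - n) = 0 := by
    apply sum_eq_zero
    intro n hn
    rw [mem_range] at hn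
    by_cases h1 : N ≤ b + n
    · rw [hx _ _ (Or.inl h1), mul_zero]
    by_cases h2 : N ≤ a - n
    · rw [hx _ _ (Or.inr h2), mul_zero]
    have h3 : N ≤ a := by omega
    have : gs w l a b n = 0 := by
      unfold gs
      rw [qb_van h h3 (by omega) (by omega)]
      ring
    rw [this, zero_mul]
  rw [this, mul_zero]

lemma sn_T2 (h : Rt N w) (x : V2) (hx : x ∈ T2 N) : sn w l x ∈ T2 N := by
  rw [T2_iff] at *
  intro a b hab
  rw [sn_apply]
  have : ∑ n ∈ range (b + 1), gn w l a b n * x (b - n) (a + n) = 0 := by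
    apply sum_eq_zero
    intro n hn
    rw [mem_range] at hn
    by_cases h1 : N ≤ a + n
    · rw [hx _ _ (Or.inr h1), mul_zero]
    by_cases h2 : N ≤ b - n
    · rw [hx _ _ (Or.inl h2), mul_zero]
    have h3 : N ≤ b := by omega
    have : gn w l a b n = 0 := by
      unfold gn
      rw [qb_van h h3 (by omega) (by omega)]
      ring
    rw [this, zero_mul]
  rw [this, mul_zero]

lemma E2_T2 (x : V2) (hx : x ∈ T2 N) : E2 w l x ∈ T2 N := by
  rw [T2_iff] at *
  intro a b hab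
  rw [E2_apply, hx _ _ (by omega), hx _ _ (by omega)]
  ring

lemma F2_T2 (h : Rt N w) (x : V2) (hx : x ∈ T2 N) : F2 w l x ∈ T2 N := by
  rw [T2_iff] at *
  intro a b hab
  rw [F2_apply]
  have h1 : qi w a * x (a - 1) b = 0 := by
    by_cases h2 : N ≤ a - 1 ∨ N ≤ b
    · rw [hx _ _ h2, mul_zero]
    · have : a = N := by omega
      rw [this, qi_N h, zero_mul]
  have h2 : qi w b * x a (b - 1) = 0 := by
    by_cases h2 : N ≤ a ∨ N ≤ b - 1
    · rw [hx _ _ h2, mul_zero]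
    · have : b = N := by omega
      rw [this, qi_N h, zero_mul]
  rw [h1, mul_assoc, h2]
  ring

lemma cas_apply (x : V2) (a b : ℕ) :
    cas w l x a b = F2 w l (E2 w l x) a b +
      (w * KK w l a * KK w l b + (w * KK w l a * KK w l b)⁻¹) * x a b := rfl

lemma K2_apply (x : V2) (a b : ℕ) : K2 w l x a b = KK w l a * KK w l b * x a b := rfl

lemma cas_T2 (h : Rt N w) (x : V2) (hx : x ∈ T2 N) : cas w l x ∈ T2 N := by
  have h1 := F2_T2 (l := l) h _ (E2_T2 (w := w) (l := l) x hx)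
  rw [T2_iff] at *
  intro a b hab
  rw [cas_apply, h1 a b hab, hx a b hab]
  ring

lemma KK_succ (hw : w ≠ 0) (a : ℕ) : KK w l (a + 1) = KK w l a * (w ^ 2)⁻¹ := by
  rw [KK_eq hw, KK_eq hw, pow_succ w a]
  have hA : w ^ a ≠ 0 := pow_ne_zero _ hw
  field_simp

lemma KK_add (hw : w ≠ 0) (a b : ℕ) :
    KK w l a * KK w l b = l ^ 2 * (w ^ 2 * (w ^ (a + b)) ^ 2)⁻¹ := by
  rw [KK_eq hw, KK_eq hw, pow_add]
  have hA : w ^ a ≠ 0 := pow_ne_zero _ hw
  have hB : w ^ b ≠ 0 := pow_ne_zero _ hw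
  field_simp

lemma sg_K2 (hw : w ≠ 0) (x : V2) : sg w l (K2 w l x) = K2 w l (sg w l x) := by
  funext a b
  rw [K2_apply, sg_apply, sg_apply]
  have h0 : ∀ C S : ℂ, KK w l a * KK w l b * (C * S) = C * (KK w l a * KK w l b * S) :=
    fun C S => by ring
  rw [h0]
  congr 1
  rw [mul_sum]
  refine sum_congr rfl fun n hn => ?_
  rw [mem_range] at hn
  rw [K2_apply, KK_add hw, KK_add hw]
  have : b + n + (a - n) = a + b := by omega
  rw [this]
  ring

lemma sn_K2 (hw : w ≠ 0) (x : V2) : sn w l (K2 w l x) = K2 w l (sn w l x) := by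
  funext a b
  rw [K2_apply, sn_apply, sn_apply]
  have h0 : ∀ C S : ℂ, KK w l a * KK w l b * (C * S) = C * (KK w l a * KK w l b * S) :=
    fun C S => by ring
  rw [h0]
  congr 1
  rw [mul_sum]
  refine sum_congr rfl fun n hn => ?_
  rw [mem_range] at hn
  rw [K2_apply, KK_add hw, KK_add hw]
  have : b - n + (a + n) = a + b := by omega
  rw [this]
  ring

lemma E2_K2 (hw : w ≠ 0) (x : V2) (a b : ℕ) :
    E2 w l (K2 w l x) a b = (w ^ 2)⁻¹ * (KK w l a * KK w l b * E2 w l x a b) := by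
  rw [E2_apply, E2_apply, K2_apply, K2_apply, KK_succ hw, KK_succ hw]
  ring

lemma F2_K2 (hw : w ≠ 0) (x : V2) (a b : ℕ) :
    F2 w l (K2 w l x) a b = w ^ 2 * (KK w l a * KK w l b * F2 w l x a b) := by
  rw [F2_apply, F2_apply, K2_apply, K2_apply]
  have h1 : qi w a * KK w l (a - 1) = w ^ 2 * (qi w a * KK w l a) := by
    rcases a with _ | a
    · rw [qi_zero']
      ring
    · have h3 : a + 1 - 1 = a := rfl
      rw [h3, KK_succ hw]
      field_simp
  have h2 : qi w b * KK w l (b - 1) = w ^ 2 * (qi w b * KK w l b) := by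
    rcases b with _ | b
    · rw [qi_zero']
      ring
    · have h3 : b + 1 - 1 = b := rfl
      rw [h3, KK_succ hw]
      field_simp
  linear_combination (KK w l b * x (a - 1) b) * h1 + ((KK w l a)⁻¹ * KK w l a * x a (b - 1)) * h2

lemma cas_K2 (hw : w ≠ 0) (x : V2) : cas w l (K2 w l x) = K2 w l (cas w l x) := by
  funext a b
  rw [K2_apply, cas_apply, cas_apply]
  have h1 : E2 w l (K2 w l x) = (w ^ 2)⁻¹ • K2 w l (E2 w l x) := by
    funext a b
    rw [E2_K2 hw]
    rfl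
  rw [h1, map_smul]
  show (w ^ 2)⁻¹ * F2 w l (K2 w l (E2 w l x)) a b + _ = _
  rw [F2_K2 hw, K2_apply]
  have h2 : ∀ X : ℂ, (w ^ 2)⁻¹ * (w ^ 2 * X) = X := fun X => by field_simp
  rw [h2]
  ring

/-- the commutator -/
lemma comm (hw : w ≠ 0) (hl : l ≠ 0) (x : V2) (a b : ℕ) :
    E2 w l (F2 w l x) a b = F2 w l (E2 w l x) a b +
      (w - w⁻¹) * (KK w l a * KK w l b - (KK w l a * KK w l b)⁻¹) * x a b := by
  have hA : w ^ a ≠ 0 := pow_ne_zero _ hw
  have hB : w ^ b ≠ 0 := pow_ne_zero _ hw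
  rw [E2_apply, F2_apply, F2_apply, F2_apply, E2_apply, E2_apply]
  have h1 : a + 1 - 1 = a := rfl
  have h2 : b + 1 - 1 = b := rfl
  rw [h1, h2]
  have ga : qi w a * (lb w l (-1 - ((a - 1 : ℕ) : ℤ)) * KK w l b * x (a - 1 + 1) b
      + lb w l (-1 - b) * x (a - 1) (b + 1))
      = qi w a * (lb w l (-(a : ℤ)) * KK w l b * x a b + lb w l (-1 - b) * x (a - 1) (b + 1)) := by
    rcases a with _ | a
    · rw [qi_zero']
      ring
    · have h3 : a + 1 - 1 = a := rfl
      have h4 : -1 - (a : ℤ) = -((a + 1 : ℕ) : ℤ) := by push_cast; ring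
      rw [h3, h4]
  have gb : qi w b * (lb w l (-1 - a) * KK w l (b - 1) * x (a + 1) (b - 1)
      + lb w l (-1 - ((b - 1 : ℕ) : ℤ)) * x a (b - 1 + 1))
      = qi w b * (lb w l (-1 - a) * (w ^ 2 * KK w l b) * x (a + 1) (b - 1)
      + lb w l (-(b : ℤ)) * x a b) := by
    rcases b with _ | b
    · rw [qi_zero']
      ring
    · have h3 : b + 1 - 1 = b := rfl
      have h4 : -1 - (b : ℤ) = -((b + 1 : ℕ) : ℤ) := by push_cast; ring
      rw [h3, h4, KK_succ hw]
      field_simp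
  have gb' : (KK w l a)⁻¹ * qi w b * (lb w l (-1 - a) * KK w l (b - 1) * x (a + 1) (b - 1)
      + lb w l (-1 - ((b - 1 : ℕ) : ℤ)) * x a (b - 1 + 1))
      = (KK w l a)⁻¹ * (qi w b * (lb w l (-1 - a) * (w ^ 2 * KK w l b) * x (a + 1) (b - 1)
      + lb w l (-(b : ℤ)) * x a b)) := by
    rw [← gb]
    ring
  rw [ga, gb']
  have ca : qi w ((a + 1 : ℕ) : ℤ) = w * w ^ a - (w * w ^ a)⁻¹ := by
    rw [← qi_succ]
    push_cast
    rfl
  have cb : qi w ((b + 1 : ℕ) : ℤ) = w * w ^ b - (w * w ^ b)⁻¹ := by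
    rw [← qi_succ]
    push_cast
    rfl
  rw [ca, cb, KK_succ hw, KK_eq hw a, KK_eq hw b, lb_eq hw a, lb_eq hw b, lb_neg hw a, lb_neg hw b,
    qi_nat, qi_nat]
  field_simp
  ring

lemma cas_E2 (hw : w ≠ 0) (hl : l ≠ 0) (x : V2) : cas w l (E2 w l x) = E2 w l (cas w l x) := by
  funext a b
  rw [cas_apply]
  have hA : w ^ a ≠ 0 := pow_ne_zero _ hw
  have hB : w ^ b ≠ 0 := pow_ne_zero _ hw
  have h1 := comm hw hl (E2 w l x) a b
  have h2 : E2 w l (cas w l x) a b = E2 w l (F2 w l (E2 w l x)) a b +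
      (w⁻¹ * (KK w l a * KK w l b) + w * (KK w l a * KK w l b)⁻¹) * E2 w l x a b := by
    rw [E2_apply, cas_apply, cas_apply, E2_apply (F2 w l (E2 w l x)), E2_apply x, KK_succ hw,
      KK_succ hw]
    rw [KK_eq hw a, KK_eq hw b]
    field_simp
    ring
  rw [h2, h1]
  rw [KK_eq hw a, KK_eq hw b]
  field_simp
  ring

lemma cas_F2 (hw : w ≠ 0) (hl : l ≠ 0) (x : V2) : cas w l (F2 w l x) = F2 w l (cas w l x) := by
  funext a b
  rw [cas_apply]
  have hA : w ^ a ≠ 0 := pow_ne_zero _ hw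
  have hB : w ^ b ≠ 0 := pow_ne_zero _ hw
  have h1 : E2 w l (F2 w l x) = F2 w l (E2 w l x) + fun a b =>
      (w - w⁻¹) * (KK w l a * KK w l b - (KK w l a * KK w l b)⁻¹) * x a b := by
    funext a b
    exact comm hw hl x a b
  rw [h1, map_add]
  have h3 : cas w l x = F2 w l (E2 w l x) + fun a b =>
      (w * KK w l a * KK w l b + (w * KK w l a * KK w l b)⁻¹) * x a b := by
    funext a b
    exact cas_apply x a b
  rw [h3, map_add]
  show F2 w l (F2 w l (E2 w l x)) a b + F2 w l (fun a b =>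
      (w - w⁻¹) * (KK w l a * KK w l b - (KK w l a * KK w l b)⁻¹) * x a b) a b + _
    = F2 w l (F2 w l (E2 w l x)) a b + F2 w l (fun a b =>
      (w * KK w l a * KK w l b + (w * KK w l a * KK w l b)⁻¹) * x a b) a b
  rw [F2_apply (fun a b => (w - w⁻¹) * (KK w l a * KK w l b - (KK w l a * KK w l b)⁻¹) * x a b),
    F2_apply (fun a b => (w * KK w l a * KK w l b + (w * KK w l a * KK w l b)⁻¹) * x a b),
    F2_apply x]
  have ga : qi w a * ((w - w⁻¹) * (KK w l (a - 1) * KK w l b - (KK w l (a - 1) * KK w l b)⁻¹)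
      * x (a - 1) b) + (w * KK w l a * KK w l b + (w * KK w l a * KK w l b)⁻¹)
        * (qi w a * x (a - 1) b)
      = qi w a * ((w * KK w l (a - 1) * KK w l b + (w * KK w l (a - 1) * KK w l b)⁻¹)
        * x (a - 1) b) := by
    rcases a with _ | a
    · rw [qi_zero']
      ring
    · have h3 : a + 1 - 1 = a := rfl
      have hA : w ^ a ≠ 0 := pow_ne_zero _ hw
      rw [h3, KK_succ hw, KK_eq hw a, KK_eq hw b]
      field_simp
      ring
  have gb : qi w b * ((w - w⁻¹) * (KK w l a * KK w l (b - 1) - (KK w l a * KK w l (b - 1))⁻¹)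
      * x a (b - 1)) + (w * KK w l a * KK w l b + (w * KK w l a * KK w l b)⁻¹)
        * (qi w b * x a (b - 1))
      = qi w b * ((w * KK w l a * KK w l (b - 1) + (w * KK w l a * KK w l (b - 1))⁻¹)
        * x a (b - 1)) := by
    rcases b with _ | b
    · rw [qi_zero']
      ring
    · have h3 : b + 1 - 1 = b := rfl
      have hB : w ^ b ≠ 0 := pow_ne_zero _ hw
      rw [h3, KK_succ hw, KK_eq hw a, KK_eq hw b]
      field_simp
      ring
  linear_combination ga + (KK w l a)⁻¹ * gb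

theorem sigt : S_SIGT := by
  intro N w l h hl
  have hw := Rt_ne h
  exact ⟨sg_T2 h, sn_T2 h, E2_T2, F2_T2 h, cas_T2 h, sg_K2 hw, sn_K2 hw, cas_K2 hw,
    cas_E2 hw hl, cas_F2 hw hl⟩

end Pool.Agent.Y807.CB
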