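import Pool.Agent.Y472.A.Defs

/-!
Gaussian binomials (helper807 for the project CB3 of helper472).
-/

set_option autoImplicit false

namespace Pool.Agent.Y807.CB

open Finset Pool.Agent.Y472

variable {w l : ℂ}

lemma qb_zero (m : ℕ) : qb w m 0 = 1 := by
  cases m <;> rfl

lemma qb_succ (m n : ℕ) :
    qb w (m + 1) (n + 1) = w ^ ((n : ℤ) + 1) * qb w m (n + 1) + w ^ ((n : ℤ) - m) * qb w m n := rfl

lemma qb_gt : ∀ {m n : ℕ}, m < n → qb w m n = 0 := by
  intro m
  induction m with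
  | zero =>
    intro n hn
    obtain ⟨k, rfl⟩ := Nat.exists_eq_succ_of_ne_zero (by omega : n ≠ 0)
    rfl
  | succ m ih =>
    intro n hn
    obtain ⟨k, rfl⟩ := Nat.exists_eq_succ_of_ne_zero (by omega : n ≠ 0)
    rw [Nat.succ_eq_add_one, qb_succ, ih (by omega), ih (by omega)]
    simp

/-- first Pascal identity with natural powers -/
lemma pas1 (hw : w ≠ 0) (m n : ℕ) :
    qb w (m + 1) (n + 1) = w * w ^ n * qb w m (n + 1) + w ^ n * (w ^ m)⁻¹ * qb w m n := by
  rw [qb_succ, zpow_sub₀ hw, zpow_add₀ hw, zpow_natCast, zpow_natCast, zpow_one, div_eq_mul_inv]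
  ring

/-- second Pascal identity -/
lemma pas2 (hw : w ≠ 0) : ∀ m n : ℕ,
    qb w (m + 1) (n + 1) = (w * w ^ n)⁻¹ * qb w m (n + 1) + w ^ m * (w ^ n)⁻¹ * qb w m n := by
  intro m
  induction m with
  | zero =>
    intro n
    rw [pas1 hw]
    rcases n with _ | n
    · simp [qb_gt (w := w) (Nat.zero_lt_one), qb_zero]
    · rw [qb_gt (by omega : 0 < n + 1 + 1), qb_gt (by omega : 0 < n + 1)]
      simp
  | succ m ih =>
    intro n
    have h1 := pas1 hw (m + 1) n
    have h2 := ih n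
    have h3 := pas1 hw m n
    rcases n with _ | n
    · rw [zero_add] at *
      rw [qb_zero] at *
      linear_combination (norm := skip) h1 + w * h2 - w⁻¹ * h3
      field_simp
      ring
    · have h4 := ih (n + 1)
      have h5 := pas1 hw m (n + 1)
      have h6 := ih n
      have h7 := pas1 hw m n
      linear_combination (norm := skip) h1 + w * w ^ (n + 1) * h4
        + w ^ (n + 1) * (w ^ (m + 1))⁻¹ * h6 - (w * w ^ (n + 1))⁻¹ * h5
        - w ^ (m + 1) * (w ^ (n + 1))⁻¹ * h7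
      field_simp
      ring

lemma qi_nat (n : ℕ) : qi w n = w ^ n - (w ^ n)⁻¹ := by
  unfold qi cb
  rw [zpow_natCast]

/-- `qb m n {m - n} = {n + 1} qb m (n + 1)` -/
lemma qrel (hw : w ≠ 0) (m n : ℕ) :
    qb w m n * qi w ((m : ℤ) - n) = qi w (n + 1) * qb w m (n + 1) := by
  have h1 := pas1 hw m n
  have h2 := pas2 hw m n
  unfold qi cb
  rw [zpow_sub₀ hw, zpow_add₀ hw, zpow_natCast, zpow_natCast, zpow_one]
  linear_combination (norm := skip) h1 - h2
  field_simp
  ring

/-- `{m + 1} qb m n = {m + 1 - n} qb (m + 1) n` -/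
lemma qrel2 (hw : w ≠ 0) (m n : ℕ) :
    qi w (m + 1) * qb w m n = qi w ((m : ℤ) + 1 - n) * qb w (m + 1) n := by
  rcases n with _ | n
  · simp [qb_zero]
  · have h1 := pas1 hw m n
    have h2 := qrel hw m n
    unfold qi cb at *
    rw [zpow_sub₀ hw, zpow_add₀ hw, zpow_natCast, zpow_natCast, zpow_one] at *
    rw [h1]
    linear_combination (norm := skip) (-(w ^ n * (w ^ m)⁻¹)) * h2
    field_simp
    ring

/-- `qb m n ∏ {t + 1} = ∏ {m - t}` -/
lemma qprod (hw : w ≠ 0) (m n : ℕ) :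
    qb w m n * ∏ t ∈ range n, qi w ((t : ℤ) + 1) = ∏ t ∈ range n, qi w ((m : ℤ) - t) := by
  induction n with
  | zero => simp [qb_zero]
  | succ n ih =>
    rw [prod_range_succ, prod_range_succ, ← ih]
    have := qrel hw m n
    linear_combination (-(∏ t ∈ range n, qi w ((t : ℤ) + 1))) * this

end Pool.Agent.Y807.CB
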