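import Pool.Agent.Y807.CB.Qb

/-!
The positive crossing commutes with `ΔE` and `ΔF` (helper807 for the project CB3 of helper472).
-/

set_option autoImplicit false

namespace Pool.Agent.Y807.CB

open Finset Pool.Agent.Y472

variable {w l : ℂ}

/-- the constant of the positive crossing -/
noncomputable def Cs (w l : ℂ) (a b : ℕ) : ℂ :=
  l ^ (-(1 + (a : ℤ) + b)) * w ^ (1 + (a : ℤ) + b + 2 * a * b)

/-- the coefficients of the positive crossing -/
noncomputable def gs (w l : ℂ) (a b n : ℕ) : ℂ :=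
  w ^ (n * (n - 1) / 2) * qb w a n * ∏ t ∈ range n, lb w l (-(b : ℤ) - 1 - t)

lemma sg_apply (x : V2) (a b : ℕ) :
    sg w l x a b = Cs w l a b * ∑ n ∈ range (a + 1), gs w l a b n * x (b + n) (a - n) := rfl

lemma E2_apply (x : V2) (a b : ℕ) :
    E2 w l x a b = lb w l (-1 - a) * KK w l b * x (a + 1) b + lb w l (-1 - b) * x a (b + 1) := rfl

lemma F2_apply (x : V2) (a b : ℕ) :
    F2 w l x a b = qi w a * x (a - 1) b + (KK w l a)⁻¹ * qi w b * x a (b - 1) := rfl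

lemma Cs_a (hw : w ≠ 0) (hl : l ≠ 0) (a b : ℕ) :
    Cs w l (a + 1) b = Cs w l a b * (l⁻¹ * w * (w ^ b) ^ 2) := by
  have e1 : l ^ (-(1 + ((a + 1 : ℕ) : ℤ) + b)) = l ^ (-(1 + (a : ℤ) + b)) * l⁻¹ := by
    rw [← zpow_neg_one l, ← zpow_add₀ hl]
    congr 1
    push_cast
    ring
  have e2 : w ^ (1 + ((a + 1 : ℕ) : ℤ) + b + 2 * ((a + 1 : ℕ) : ℤ) * b)
      = w ^ (1 + (a : ℤ) + b + 2 * a * b) * (w * (w ^ b) ^ 2) := by
    rw [← pow_mul, ← pow_succ', ← zpow_natCast, ← zpow_add₀ hw]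
    congr 1
    push_cast
    ring
  unfold Cs
  rw [e1, e2]
  ring

lemma Cs_b (hw : w ≠ 0) (hl : l ≠ 0) (a b : ℕ) :
    Cs w l a (b + 1) = Cs w l a b * (l⁻¹ * w * (w ^ a) ^ 2) := by
  have e1 : l ^ (-(1 + (a : ℤ) + ((b + 1 : ℕ) : ℤ))) = l ^ (-(1 + (a : ℤ) + b)) * l⁻¹ := by
    rw [← zpow_neg_one l, ← zpow_add₀ hl]
    congr 1
    push_cast
    ring
  have e2 : w ^ (1 + (a : ℤ) + ((b + 1 : ℕ) : ℤ) + 2 * a * ((b + 1 : ℕ) : ℤ))
      = w ^ (1 + (a : ℤ) + b + 2 * a * b) * (w * (w ^ a) ^ 2) := by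
    rw [← pow_mul, ← pow_succ', ← zpow_natCast, ← zpow_add₀ hw]
    congr 1
    push_cast
    ring
  unfold Cs
  rw [e1, e2]
  ring

lemma prod_lb (b n : ℕ) : ∏ t ∈ range (n + 1), lb w l (-(b : ℤ) - 1 - t)
    = lb w l (-1 - b) * ∏ t ∈ range n, lb w l (-((b + 1 : ℕ) : ℤ) - 1 - t) := by
  rw [prod_range_succ', mul_comm]
  congr 1
  · congr 1
    push_cast
    ring
  · refine prod_congr rfl fun t _ => ?_
    congr 1
    push_cast
    ring

lemma gs_zero (a b : ℕ) : gs w l a b 0 = 1 := by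
  simp [gs, qb_zero]

lemma lb_eq (hw : w ≠ 0) (a : ℕ) :
    lb w l (-1 - a) = l * (w * w ^ a)⁻¹ - l⁻¹ * (w * w ^ a) := by
  unfold lb cb
  rw [zpow_sub₀ hw, zpow_natCast, zpow_neg, zpow_one, mul_inv, inv_div, div_inv_eq_mul,
    mul_inv w, div_eq_mul_inv]
  ring

lemma lb_eq' (hw : w ≠ 0) (b n : ℕ) :
    lb w l (-(b : ℤ) - 1 - n) = l * (w * w ^ b * w ^ n)⁻¹ - l⁻¹ * (w * w ^ b * w ^ n) := by
  have : -(b : ℤ) - 1 - n = -1 - ((b + n : ℕ) : ℤ) := by push_cast; ring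
  rw [this, lb_eq hw, pow_add]
  ring

lemma KK_eq (hw : w ≠ 0) (a : ℕ) : KK w l a = l * (w * (w ^ a) ^ 2)⁻¹ := by
  unfold KK
  rw [zpow_sub₀ hw, zpow_neg, zpow_one, mul_comm 2 (a : ℤ), zpow_mul, zpow_natCast, mul_inv]
  norm_cast

/-- the coefficient identity for `E` -/
lemma keyE (hw : w ≠ 0) (hl : l ≠ 0) (a b n : ℕ) (hn : n ≤ a) :
    Cs w l a b * (gs w l a b n * (lb w l (-1 - ((b + n : ℕ) : ℤ)) * KK w l (a - n))
      + gs w l a b (n + 1) * lb w l (-1 - ((a : ℤ) - (n + 1)))) =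
    lb w l (-1 - a) * KK w l b * (Cs w l (a + 1) b * gs w l (a + 1) b (n + 1))
      + lb w l (-1 - b) * (Cs w l a (b + 1) * gs w l a (b + 1) n) := by
  have hA : w ^ a ≠ 0 := pow_ne_zero _ hw
  have hB : w ^ b ≠ 0 := pow_ne_zero _ hw
  have hW : w ^ n ≠ 0 := pow_ne_zero _ hw
  have e1 : lb w l (-1 - ((b + n : ℕ) : ℤ)) = lb w l (-(b : ℤ) - 1 - n) := by
    congr 1
    push_cast
    ring
  have e2 : lb w l (-1 - ((a : ℤ) - (n + 1))) = l * (w ^ n * (w ^ a)⁻¹) - l⁻¹ * (w ^ a * (w ^ n)⁻¹) := by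
    unfold lb cb
    have : -1 - ((a : ℤ) - (n + 1)) = n - a := by ring
    rw [this, zpow_sub₀ hw, zpow_natCast, zpow_natCast, mul_inv, inv_div, div_eq_mul_inv,
      div_eq_mul_inv]
  have e3 : KK w l (a - n) = l * (w * (w ^ a) ^ 2)⁻¹ * (w ^ n) ^ 2 := by
    rw [KK_eq hw]
    have : w ^ a = w ^ (a - n) * w ^ n := by rw [← pow_add]; congr 1; omega
    rw [this]
    have h5 : w ^ (a - n) ≠ 0 := pow_ne_zero _ hw
    field_simp
  have e4 : lb w l (-1 - b) * gs w l a (b + 1) n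
      = w ^ (n * (n - 1) / 2) * qb w a n * ∏ t ∈ range (n + 1), lb w l (-(b : ℤ) - 1 - t) := by
    rw [prod_lb]
    unfold gs
    ring
  have e5 : gs w l a b (n + 1) = w ^ (n * (n - 1) / 2) * w ^ n * qb w a (n + 1)
      * ∏ t ∈ range (n + 1), lb w l (-(b : ℤ) - 1 - t) := by
    unfold gs
    rw [Nat.triangle_succ, pow_add]
  have e6 : gs w l (a + 1) b (n + 1) = w ^ (n * (n - 1) / 2) * w ^ n * qb w (a + 1) (n + 1)
      * ∏ t ∈ range (n + 1), lb w l (-(b : ℤ) - 1 - t) := by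
    unfold gs
    rw [Nat.triangle_succ, pow_add]
  have e7 : gs w l a b n * lb w l (-(b : ℤ) - 1 - n)
      = w ^ (n * (n - 1) / 2) * qb w a n * ∏ t ∈ range (n + 1), lb w l (-(b : ℤ) - 1 - t) := by
    rw [prod_range_succ]
    unfold gs
    ring
  have h1 := pas1 hw a n
  have h2 := pas2 hw a n
  have main : qb w a n * (l * (w * (w ^ a) ^ 2)⁻¹ * (w ^ n) ^ 2)
      + w ^ n * qb w a (n + 1) * (l * (w ^ n * (w ^ a)⁻¹) - l⁻¹ * (w ^ a * (w ^ n)⁻¹))
      = (l * (w * w ^ a)⁻¹ - l⁻¹ * (w * w ^ a)) * (w ^ n * qb w (a + 1) (n + 1))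
      + l⁻¹ * w * (w ^ a) ^ 2 * qb w a n := by
    linear_combination (norm := skip) (-(l * (w * w ^ a)⁻¹ * w ^ n)) * h1
      + (l⁻¹ * (w * w ^ a) * w ^ n) * h2
    field_simp
    ring
  have e8 : lb w l (-1 - b) * (Cs w l a (b + 1) * gs w l a (b + 1) n)
      = Cs w l a (b + 1) * (lb w l (-1 - b) * gs w l a (b + 1) n) := by ring
  have e9 : gs w l a b n * (lb w l (-1 - ((b + n : ℕ) : ℤ)) * KK w l (a - n))
      = (gs w l a b n * lb w l (-(b : ℤ) - 1 - n)) * KK w l (a - n) := by rw [e1]; ring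
  have e10 : KK w l b * Cs w l (a + 1) b = Cs w l a b := by
    rw [Cs_a hw hl, KK_eq hw]
    field_simp
  rw [e8, e4, e9, e7, e3, e5, e2, e6, Cs_b hw hl, lb_eq hw a]
  have e11 : (l * (w * w ^ a)⁻¹ - l⁻¹ * (w * w ^ a)) * KK w l b * (Cs w l (a + 1) b *
      (w ^ (n * (n - 1) / 2) * w ^ n * qb w (a + 1) (n + 1)
      * ∏ t ∈ range (n + 1), lb w l (-(b : ℤ) - 1 - t)))
      = (l * (w * w ^ a)⁻¹ - l⁻¹ * (w * w ^ a)) * (KK w l b * Cs w l (a + 1) b) *
      (w ^ (n * (n - 1) / 2) * w ^ n * qb w (a + 1) (n + 1)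
      * ∏ t ∈ range (n + 1), lb w l (-(b : ℤ) - 1 - t)) := by ring
  rw [e11, e10]
  linear_combination (Cs w l a b * w ^ (n * (n - 1) / 2)
    * ∏ t ∈ range (n + 1), lb w l (-(b : ℤ) - 1 - t)) * main

theorem sig1E (hw : w ≠ 0) (hl : l ≠ 0) (x : V2) : sg w l (E2 w l x) = E2 w l (sg w l x) := by
  funext a b
  obtain ⟨y, hy⟩ : ∃ y : ℕ → ℂ, y = fun n => x (b + n) (a + 1 - n) := ⟨_, rfl⟩
  have L : sg w l (E2 w l x) a b = Cs w l a b * (∑ n ∈ range (a + 1),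
      gs w l a b n * (lb w l (-1 - ((b + n : ℕ) : ℤ)) * KK w l (a - n)) * y (n + 1)
      + ∑ n ∈ range (a + 1), gs w l a b n * lb w l (-1 - ((a : ℤ) - n)) * y n) := by
    rw [sg_apply, ← sum_add_distrib]
    congr 1
    refine sum_congr rfl fun n hn => ?_
    rw [mem_range] at hn
    rw [E2_apply, hy]
    have h1 : b + n + 1 = b + (n + 1) := by ring
    have h2 : a - n + 1 = a + 1 - n := by omega
    have h3 : a + 1 - (n + 1) = a - n := by omega
    simp only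
    rw [h1, h2, h3, Nat.cast_sub (by omega : n ≤ a)]
    ring
  have L2 : ∑ n ∈ range (a + 1), gs w l a b n * lb w l (-1 - ((a : ℤ) - n)) * y n
      = lb w l (-1 - a) * y 0 + ∑ n ∈ range (a + 1),
        gs w l a b (n + 1) * lb w l (-1 - ((a : ℤ) - (n + 1))) * y (n + 1) := by
    have h1 : ∑ n ∈ range (a + 1 + 1), gs w l a b n * lb w l (-1 - ((a : ℤ) - n)) * y n
        = ∑ n ∈ range (a + 1), gs w l a b n * lb w l (-1 - ((a : ℤ) - n)) * y n := by
      rw [sum_range_succ]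
      have : gs w l a b (a + 1) = 0 := by
        unfold gs
        rw [qb_gt (by omega)]
        ring
      rw [this]
      ring
    rw [← h1, sum_range_succ']
    rw [gs_zero]
    push_cast
    ring_nf
  have R : E2 w l (sg w l x) a b = lb w l (-1 - a) * KK w l b * (Cs w l (a + 1) b *
      (y 0 + ∑ n ∈ range (a + 1), gs w l (a + 1) b (n + 1) * y (n + 1)))
      + lb w l (-1 - b) * (Cs w l a (b + 1) *
      ∑ n ∈ range (a + 1), gs w l a (b + 1) n * y (n + 1)) := by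
    rw [E2_apply, sg_apply, sg_apply, sum_range_succ']
    rw [gs_zero]
    congr 2
    · rw [hy]
      simp only
      ring
    · congr 1
      refine sum_congr rfl fun n hn => ?_
      rw [hy]
      have h1 : b + 1 + n = b + (n + 1) := by ring
      have h3 : a + 1 - (n + 1) = a - n := by omega
      simp only
      rw [h1, h3]
  rw [L, L2, R]
  have h0 : lb w l (-1 - a) * KK w l b * (Cs w l (a + 1) b *
      (y 0 + ∑ n ∈ range (a + 1), gs w l (a + 1) b (n + 1) * y (n + 1)))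
      + lb w l (-1 - b) * (Cs w l a (b + 1) *
      ∑ n ∈ range (a + 1), gs w l a (b + 1) n * y (n + 1))
      = (lb w l (-1 - a) * (KK w l b * Cs w l (a + 1) b)) * y 0 + ∑ n ∈ range (a + 1),
      (lb w l (-1 - a) * KK w l b * (Cs w l (a + 1) b * gs w l (a + 1) b (n + 1))
      + lb w l (-1 - b) * (Cs w l a (b + 1) * gs w l a (b + 1) n)) * y (n + 1) := by
    simp only [mul_add, mul_sum, add_mul, sum_add_distrib]
    rw [add_assoc]
    congr 1
    · ring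
    · congr 1
      · refine sum_congr rfl fun n _ => by ring
      · refine sum_congr rfl fun n _ => by ring
  rw [h0]
  have e10 : KK w l b * Cs w l (a + 1) b = Cs w l a b := by
    rw [Cs_a hw hl, KK_eq hw]
    have hB : w ^ b ≠ 0 := pow_ne_zero _ hw
    field_simp
  rw [e10]
  have h4 : Cs w l a b * (∑ n ∈ range (a + 1),
      gs w l a b n * (lb w l (-1 - ((b + n : ℕ) : ℤ)) * KK w l (a - n)) * y (n + 1)
      + (lb w l (-1 - a) * y 0 + ∑ n ∈ range (a + 1),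
        gs w l a b (n + 1) * lb w l (-1 - ((a : ℤ) - (n + 1))) * y (n + 1)))
      = lb w l (-1 - a) * Cs w l a b * y 0 + ∑ n ∈ range (a + 1),
      (Cs w l a b * (gs w l a b n * (lb w l (-1 - ((b + n : ℕ) : ℤ)) * KK w l (a - n))
      + gs w l a b (n + 1) * lb w l (-1 - ((a : ℤ) - (n + 1))))) * y (n + 1) := by
    simp only [mul_add, mul_sum, add_mul, sum_add_distrib]
    have h5 : ∀ n, Cs w l a b * (gs w l a b n * (lb w l (-1 - ((b + n : ℕ) : ℤ)) * KK w l (a - n))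
      * y (n + 1)) = Cs w l a b * (gs w l a b n * (lb w l (-1 - ((b + n : ℕ) : ℤ)) * KK w l (a - n)))
      * y (n + 1) := fun n => by ring
    have h6 : ∀ n, Cs w l a b * (gs w l a b (n + 1) * lb w l (-1 - ((a : ℤ) - (n + 1)))
      * y (n + 1)) = Cs w l a b * (gs w l a b (n + 1) * lb w l (-1 - ((a : ℤ) - (n + 1))))
      * y (n + 1) := fun n => by ring
    simp only [h5, h6]
    ring
  rw [h4]
  congr 1
  refine sum_congr rfl fun n hn => ?_
  rw [keyE hw hl a b n (by rw [mem_range] at hn; omega)]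

end Pool.Agent.Y807.CB
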